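import Mathlib
import Pool.Agent.P8H73.CH.Approx

namespace Pool.Agent.Results.MP_0cba1e_an.InfiniteChain

open Pool.Agent.P8H73.CH

/-! ### The notions of the problem -/

/-- Configurations on `ℤ ^ d` over the alphabet `A`. -/
abbrev Config (d : ℕ) (A : Type) : Type := (Fin d → ℤ) → A

/-- The translation `σ ^ v`, that is `(σ ^ v x) u = x (u + v)`. -/
def translate {d : ℕ} {A : Type} (v : Fin d → ℤ) (x : Config d A) : Config d A :=
  fun u => x (u + v)

/-- The product topology, `A` being discrete. -/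
@[reducible] def prodTop (d : ℕ) (A : Type) : TopologicalSpace (Config d A) :=
  @Pi.topologicalSpace (Fin d → ℤ) (fun _ => A) (fun _ => ⊥)

/-- A shift is a nonempty closed set of configurations, invariant under all translations. -/
def IsShift {d : ℕ} {A : Type} (X : Set (Config d A)) : Prop :=
  X.Nonempty ∧ @IsClosed _ (prodTop d A) X ∧ ∀ v : Fin d → ℤ, ∀ x ∈ X, translate v x ∈ X

/-- A finite pattern: a finite set of positions and a cell for each of them. -/
structure Pattern (d : ℕ) (A : Type) where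
  supp : Finset (Fin d → ℤ)
  val : supp → A

/-- The pattern `p` occurs in `x` at some place. -/
def Occurs {d : ℕ} {A : Type} (p : Pattern d A) (x : Config d A) : Prop :=
  ∃ v : Fin d → ℤ, ∀ u : p.supp, x (u + v) = p.val u

/-- A shift of finite type: a shift which is the set of all configurations avoiding some finite
set of forbidden finite patterns. -/
def IsSFT {d : ℕ} {A : Type} (X : Set (Config d A)) : Prop :=
  IsShift X ∧ ∃ F : Set (Pattern d A), F.Finite ∧ X = {x | ∀ p ∈ F, ¬ Occurs p x}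

/-- `Y` is a subsystem of `X`: a shift properly contained in `X`. -/
def IsSubsystem {d : ℕ} {A : Type} (Y X : Set (Config d A)) : Prop :=
  IsShift Y ∧ Y ⊆ X ∧ Y ≠ X

/-- `Y` is a maximal subsystem of `X`: no shift lies strictly between them. -/
def IsMaximalSubsystem {d : ℕ} {A : Type} (Y X : Set (Config d A)) : Prop :=
  IsSubsystem Y X ∧ ¬ ∃ Z : Set (Config d A), IsShift Z ∧ (Y ⊆ Z ∧ Y ≠ Z) ∧ (Z ⊆ X ∧ Z ≠ X)

/-- `Y` is the unique maximal subsystem of `X`. -/
def IsUniqueMaximalSubsystem {d : ℕ} {A : Type} (Y X : Set (Config d A)) : Prop :=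
  IsMaximalSubsystem Y X ∧ ∀ Z : Set (Config d A), IsMaximalSubsystem Z X → Z = Y

/-! ### General facts -/

section general
variable {d : ℕ} {A : Type}

theorem translate_translate (v w : Fin d → ℤ) (x : Config d A) :
    translate v (translate w x) = translate (v + w) x := by
  funext u
  unfold translate
  rw [add_assoc]

theorem translate_zero (x : Config d A) : translate 0 x = x := by
  funext u
  unfold translate
  rw [add_zero]

theorem mem_of_windows {Y : Set (Config d A)} (hY : @IsClosed _ (prodTop d A) Y) (x : Config d A)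
    (h : ∀ W : Finset (Fin d → ℤ), ∃ y ∈ Y, ∀ u ∈ W, x u = y u) : x ∈ Y := by
  let _ : TopologicalSpace A := ⊥
  have hY' : IsClosed Y := hY
  rw [← hY'.closure_eq, mem_closure_iff]
  intro o ho hx
  obtain ⟨I, U, hU1, hU2⟩ := isOpen_pi_iff.1 ho x hx
  obtain ⟨y, hy, hyx⟩ := h I
  refine ⟨y, hU2 ?_, hy⟩
  intro a ha
  rw [← hyx a ha]
  exact (hU1 a ha).2

theorem isClosed_rule (W : Finset (Fin d → ℤ)) (R : Config d A → Prop)
    (hR : ∀ x y : Config d A, (∀ u ∈ W, x u = y u) → R x → R y) :
    @IsClosed _ (prodTop d A) {x : Config d A | ∀ v, R (translate v x)} := by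
  let _ : TopologicalSpace A := ⊥
  have _ : DiscreteTopology A := ⟨rfl⟩
  have key : IsClosed {x : Config d A | ∀ v, R (translate v x)} := by
    rw [Set.ofPred_forall]
    apply isClosed_iInter
    intro v
    have hcont : Continuous (fun x : Config d A => fun u : W => x ((u : Fin d → ℤ) + v)) :=
      continuous_pi (fun u => continuous_apply _)
    have e : {x : Config d A | R (translate v x)} =
        (fun x : Config d A => fun u : W => x ((u : Fin d → ℤ) + v)) ⁻¹'
          {p : W → A | ∃ y : Config d A, (∀ u : W, p u = y u) ∧ R y} := by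
      ext x
      simp only [Set.mem_ofPred_eq, Set.mem_preimage]
      constructor
      · intro hx
        exact ⟨translate v x, fun u => rfl, hx⟩
      · rintro ⟨y, hy1, hy2⟩
        exact hR y _ (fun u hu => (hy1 ⟨u, hu⟩).symm) hy2
    rw [e]
    exact (isClosed_discrete _).preimage hcont
  exact key

theorem isSFT_rule [Finite A] (W : Finset (Fin d → ℤ)) (R : Config d A → Prop)
    (hR : ∀ x y : Config d A, (∀ u ∈ W, x u = y u) → R x → R y)
    (hne : {x : Config d A | ∀ v, R (translate v x)}.Nonempty) :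
    IsSFT {x : Config d A | ∀ v, R (translate v x)} := by
  refine ⟨⟨hne, isClosed_rule W R hR, fun v x hx w => ?_⟩,
    {P | ∃ y : Config d A, P = ⟨W, fun u => y u⟩ ∧ ¬ R y}, ?_, ?_⟩
  · rw [translate_translate]; exact hx _
  · apply (Set.finite_range (fun p : W → A => (⟨W, p⟩ : Pattern d A))).subset
    rintro P ⟨y, hP, _⟩
    exact ⟨fun u => y u, hP.symm⟩
  · ext x
    simp only [Set.mem_ofPred_eq]
    constructor
    · rintro hx P ⟨y, rfl, hy⟩ ⟨v, hv⟩
      exact hy (hR _ y (fun u hu => hv ⟨u, hu⟩) (hx v))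
    · intro hx v
      by_contra hcon
      exact hx ⟨W, fun u => translate v x u⟩ ⟨translate v x, rfl, hcon⟩ ⟨v, fun u => rfl⟩

end general

/-! ### The chain -/

section chain
variable {m : ℕ}

/-- The point with first three coordinates `i, j, h` and other coordinates `0`. -/
def emb (i j h : ℤ) : Fin (m + 3) → ℤ := fun k =>
  if k.val = 0 then i else if k.val = 1 then j else if k.val = 2 then h else 0

def c0 (u : Fin (m + 3) → ℤ) : ℤ := u ⟨0, by omega⟩
def c1 (u : Fin (m + 3) → ℤ) : ℤ := u ⟨1, by omega⟩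
def c2 (u : Fin (m + 3) → ℤ) : ℤ := u ⟨2, by omega⟩

theorem emb_add (i j h i' j' h' : ℤ) :
    (emb i j h : Fin (m + 3) → ℤ) + emb i' j' h' = emb (i + i') (j + j') (h + h') := by
  funext k
  simp only [emb, Pi.add_apply]
  split_ifs <;> simp

theorem emb_zero : (emb 0 0 0 : Fin (m + 3) → ℤ) = 0 := by
  funext k
  simp only [emb, Pi.zero_apply]
  split_ifs <;> rfl

/-- The three dimensional configuration seen by `x`. -/
def down (x : Config (m + 3) Cell) : ℤ → ℤ → ℤ → Cell := fun i j h => x (emb i j h)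

/-- The local rule: the rule of the three dimensional system and constancy in the remaining
directions. -/
def R (n : ℕ) (y : Config (m + 3) Cell) : Prop :=
  Rule (y (emb 0 0 0)) (y (emb 1 0 0)) (y (emb 0 1 0)) (y (emb 0 0 1)) (y (emb 1 0 1))
    (y (emb 0 1 1)) (y (emb 1 1 0)) (y (emb 0 1 n)) ∧
  ∀ k : Fin (m + 3), 3 ≤ k.val → y (Pi.single k 1) = y 0

/-- The window of the local rule. -/
noncomputable def W (n : ℕ) : Finset (Fin (m + 3) → ℤ) :=
  {emb 0 0 0, emb 1 0 0, emb 0 1 0, emb 0 0 1, emb 1 0 1, emb 0 1 1, emb 1 1 0, emb 0 1 n} ∪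
    Finset.univ.image (fun k : Fin (m + 3) => Pi.single k 1)

theorem R_local (n : ℕ) (x y : Config (m + 3) Cell) (h : ∀ u ∈ W n, x u = y u) (hx : R n x) :
    R n y := by
  unfold R at *
  have hz : x 0 = y 0 := by
    rw [← emb_zero]; exact h _ (by simp [W])
  rw [← h (emb 0 0 0) (by simp [W]), ← h (emb 1 0 0) (by simp [W]), ← h (emb 0 1 0) (by simp [W]),
    ← h (emb 0 0 1) (by simp [W]), ← h (emb 1 0 1) (by simp [W]), ← h (emb 0 1 1) (by simp [W]),
    ← h (emb 1 1 0) (by simp [W]), ← h (emb 0 1 n) (by simp [W]), ← hz]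
  refine ⟨hx.1, fun k hk => ?_⟩
  rw [← h (Pi.single k 1) (by simp [W])]
  exact hx.2 k hk

/-- The terms of the chain. -/
def X (n : ℕ) : Set (Config (m + 3) Cell) := {x | ∀ v, R n (translate v x)}

theorem const_dirs {x : Config (m + 3) Cell}
    (h : ∀ (v : Fin (m + 3) → ℤ) (k : Fin (m + 3)), 3 ≤ k.val → x (Pi.single k 1 + v) = x v)
    (u : Fin (m + 3) → ℤ) : x u = down x (c0 u) (c1 u) (c2 u) := by
  let P : AddSubgroup (Fin (m + 3) → ℤ) :=
    { carrier := {w | ∀ v, x (w + v) = x v}
      zero_mem' := fun v => by rw [zero_add]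
      add_mem' := by
        intro a b ha hb v
        rw [add_assoc, ha, hb]
      neg_mem' := by
        intro a ha v
        have := ha (-a + v)
        rw [add_neg_cancel_left] at this
        exact this.symm }
  have h1 : ∀ (k : Fin (m + 3)) (a : ℤ), 3 ≤ k.val → Pi.single k a ∈ P := by
    intro k a hk
    have h2 : (Pi.single k 1 : Fin (m + 3) → ℤ) ∈ P := fun v => h v k hk
    have h3 := P.zsmul_mem h2 a
    have e : a • (Pi.single k 1 : Fin (m + 3) → ℤ) = Pi.single k a := by
      funext l
      by_cases hl : l = k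
      · subst hl; simp
      · simp [Pi.single_eq_of_ne hl]
    rwa [e] at h3
  set w : Fin (m + 3) → ℤ := ∑ k ∈ Finset.univ.filter (fun k : Fin (m + 3) => 3 ≤ k.val),
    Pi.single k (u k) with hw
  have hwP : w ∈ P := P.sum_mem (fun k hk => h1 k _ (by simpa using hk))
  have hu : u = w + emb (c0 u) (c1 u) (c2 u) := by
    funext l
    rw [Pi.add_apply, hw, Finset.sum_apply]
    have e : ∀ k : Fin (m + 3), (Pi.single k (u k) : Fin (m + 3) → ℤ) l = if k = l then u l else 0 := by
      intro k
      by_cases hl : k = l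
      · subst hl; simp
      · rw [if_neg hl, Pi.single_eq_of_ne (fun hh => hl hh.symm)]
    simp only [e]
    rw [Finset.sum_ite_eq' (Finset.univ.filter (fun k : Fin (m + 3) => 3 ≤ k.val))]
    by_cases hl : 3 ≤ l.val
    · rw [if_pos (by simpa using hl)]
      unfold emb
      rw [if_neg (by omega), if_neg (by omega), if_neg (by omega), add_zero]
    · rw [if_neg (by simpa using hl), zero_add]
      unfold emb c0 c1 c2
      have h3 : l.val = 0 ∨ l.val = 1 ∨ l.val = 2 := by omega
      rcases h3 with h3 | h3 | h3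
      · rw [if_pos h3]; congr 1; exact Fin.ext h3
      · rw [if_neg (by omega), if_pos h3]; congr 1; exact Fin.ext h3
      · rw [if_neg (by omega), if_neg (by omega), if_pos h3]; congr 1; exact Fin.ext h3
  conv_lhs => rw [hu]
  exact hwP _

theorem mem_X (n : ℕ) (x : Config (m + 3) Cell) :
    x ∈ X n ↔ Valid n (down x) ∧ ∀ u, x u = down x (c0 u) (c1 u) (c2 u) := by
  constructor
  · intro hx
    refine ⟨fun i j h => ?_, const_dirs (fun v k hk => ?_)⟩
    · have := (hx (emb i j h)).1
      simp only [translate, emb_add, zero_add] at this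
      unfold down
      rw [add_comm i 1, add_comm j 1, add_comm h 1, add_comm h (n : ℤ)]
      exact this
    · have := (hx v).2 k hk
      unfold translate at this
      rw [zero_add] at this
      exact this
  · rintro ⟨hv, hu⟩ v
    have e : ∀ a b c : ℤ, translate v x (emb a b c) = down x (c0 v + a) (c1 v + b) (c2 v + c) := by
      intro a b c
      unfold translate
      rw [hu]
      unfold c0 c1 c2
      simp only [Pi.add_apply, emb]
      congr 1 <;> simp [add_comm]
    constructor
    · rw [e, e, e, e, e, e, e, e]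
      simp only [add_zero]
      exact hv _ _ _
    · intro k hk
      unfold translate
      rw [hu, hu (0 + v)]
      have e2 : ∀ (l : ℕ) (hl : l < 3), (Pi.single k 1 : Fin (m + 3) → ℤ) ⟨l, by omega⟩ = 0 := by
        intro l hl
        apply Pi.single_eq_of_ne
        intro hh
        rw [← hh] at hk
        simp at hk
        omega
      unfold c0 c1 c2
      simp only [Pi.add_apply, Pi.zero_apply]
      rw [e2 0 (by norm_num), e2 1 (by norm_num), e2 2 (by norm_num)]

/-- The model configuration. -/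
def xm (n : ℕ) : Config (m + 3) Cell := fun u => xn n (c0 u) (c1 u) (c2 u)

theorem down_xm (n : ℕ) : down (xm n : Config (m + 3) Cell) = xn n := by
  funext i j h
  unfold down xm c0 c1 c2
  simp [emb]

theorem xm_mem (n : ℕ) : (xm n : Config (m + 3) Cell) ∈ X n := by
  rw [mem_X, down_xm]
  exact ⟨xn_valid n, fun u => rfl⟩

theorem xm_not_mem (n : ℕ) : (xm n : Config (m + 3) Cell) ∉ X (n + 1) := by
  rw [mem_X, down_xm]
  intro h
  exact xn_not_valid n h.1

theorem X_anti (n : ℕ) : (X (n + 1) : Set (Config (m + 3) Cell)) ⊆ X n := by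
  intro x hx
  rw [mem_X] at *
  exact ⟨hx.1.pred, hx.2⟩

theorem X_sft (n : ℕ) : IsSFT (X n : Set (Config (m + 3) Cell)) :=
  isSFT_rule (W n) (R n) (R_local n) ⟨xm n, xm_mem n⟩

/-- A shift containing the model of level `n` contains `X n`. -/
theorem X_le_of_mem (n : ℕ) {Y : Set (Config (m + 3) Cell)} (hY : IsShift Y)
    (h : xm n ∈ Y) : X n ⊆ Y := by
  intro x hx
  rw [mem_X] at hx
  obtain ⟨hv, hu⟩ := hx
  apply mem_of_windows hY.2.1
  intro U
  set L : ℕ := U.sup (fun u => (c0 u).natAbs + (c1 u).natAbs + (c2 u).natAbs) with hL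
  obtain ⟨a, b, c, habc⟩ := approx' hv L
  refine ⟨translate (emb a b c) (xm n), hY.2.2 _ _ h, fun u hu' => ?_⟩
  have hb : (c0 u).natAbs + (c1 u).natAbs + (c2 u).natAbs ≤ L :=
    Finset.le_sup (f := fun u : Fin (m + 3) → ℤ => (c0 u).natAbs + (c1 u).natAbs + (c2 u).natAbs) hu'
  rw [hu, habc (c0 u) (c1 u) (c2 u) (by omega) (by omega) (by omega) (by omega) (by omega)
    (by omega)]
  unfold translate xm c0 c1 c2
  simp [emb]

/-- A shift inside `X n` but not inside `X (n + 1)` contains the model of level `n`. -/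
theorem xm_mem_of (n : ℕ) {Y : Set (Config (m + 3) Cell)} (hY : IsShift Y) (hYX : Y ⊆ X n)
    (h : ¬ Y ⊆ X (n + 1)) : xm n ∈ Y := by
  obtain ⟨x, hxY, hx⟩ := Set.not_subset.1 h
  have hxn := hYX hxY
  rw [mem_X] at hx hxn
  have hnv : ¬ Valid (n + 1) (down x) := fun hv => hx ⟨hv, hxn.2⟩
  obtain ⟨a, b, c, he⟩ := exact_translate hxn.1 hnv
  have : translate (emb a b c) x = xm n := by
    funext u
    unfold xm
    rw [← he]
    unfold translate
    rw [hxn.2]
    unfold sh c0 c1 c2
    simp [emb]
  rw [← this]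
  exact hY.2.2 _ _ hxY

theorem X_unique (n : ℕ) :
    IsUniqueMaximalSubsystem (X (n + 1) : Set (Config (m + 3) Cell)) (X n) := by
  have hne : (X (n + 1) : Set (Config (m + 3) Cell)) ≠ X n := by
    intro h
    apply xm_not_mem (m := m) n
    rw [h]; exact xm_mem n
  refine ⟨⟨⟨(X_sft (n + 1)).1, X_anti n, hne⟩, ?_⟩, ?_⟩
  · rintro ⟨Z, hZ, ⟨h1, h2⟩, ⟨h3, h4⟩⟩
    apply h4
    apply Set.Subset.antisymm h3
    apply X_le_of_mem n hZ
    apply xm_mem_of n hZ h3
    intro h5
    exact h2 (Set.Subset.antisymm h1 h5)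
  · rintro Z ⟨⟨hZ, h1, h2⟩, h3⟩
    have h4 : Z ⊆ X (n + 1) := by
      by_contra hcon
      exact h2 (Set.Subset.antisymm h1 (X_le_of_mem n hZ (xm_mem_of n hZ h1 hcon)))
    by_contra hcon
    exact h3 ⟨X (n + 1), (X_sft (n + 1)).1, ⟨h4, hcon⟩, X_anti n, hne⟩

end chain

/-- In every dimension `d ≥ 3` there are a finite alphabet and an infinite strictly decreasing
sequence of shifts `X 0 ⊋ X 1 ⊋ …`, each of finite type, such that `X (n + 1)` is the unique
maximal subsystem of `X n` for every `n`. -/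
theorem _root_.Pool.Agent.Results.MP_0cba1e_an.InfiniteChain.result (d : ℕ) (hd : 3 ≤ d) :
    ∃ (A : Type) (_ : Finite A) (X : ℕ → Set (Config d A)),
      (∀ n, IsSFT (X n)) ∧ (∀ n, X (n + 1) ⊆ X n ∧ X (n + 1) ≠ X n) ∧
      ∀ n, IsUniqueMaximalSubsystem (X (n + 1)) (X n) := by
  obtain ⟨m, rfl⟩ : ∃ m, d = m + 3 := ⟨d - 3, by omega⟩
  exact ⟨Cell, inferInstance, fun n => X n, fun n => X_sft n,
    fun n => ⟨(X_unique n).1.1.2.1, (X_unique n).1.1.2.2⟩, fun n => X_unique n⟩

end Pool.Agent.Results.MP_0cba1e_an.InfiniteChain
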